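import Pool.Agent.R11.SpexTree.Fin

set_option autoImplicit false

namespace Pool.Agent.Results.MP_2bde17_co.GapOneQuarter

open Pool.Agent.R11.SpexTree

/-- Q1 is false: there is a tree `T` in the class `T_{m,l+1}^δ` that is not contained in
`K̄_l ∨ m S_δ`, such that `|spex(n,T) - f(δ-1,n)| ≤ C/n` for all large `n` fails for every
constant `C`; moreover `spex(n,T) ≤ f(δ-1,n) - 1/4` for all large `n`. -/
theorem result :
    ∃ (m l δ : ℕ) (T : SimpleGraph (Fin m)),
      2 ≤ m ∧ 1 ≤ δ ∧ InClass m l δ T ∧ ¬ T.IsContained (emptyJoinStars l m δ) ∧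
      (¬ ∃ (C : ℝ) (N : ℕ), ∀ n : ℕ, N ≤ n → |spex n T - f l ((δ : ℝ) - 1) n| ≤ C / n) ∧
      (∃ N : ℕ, ∀ n : ℕ, N ≤ n → spex n T ≤ f l ((δ : ℝ) - 1) n - 1 / 4) := by
  refine ⟨9, 2, 2, T9, by norm_num, by norm_num, T9_class, T9_not, ?_, 1000000, ?_⟩
  · rintro ⟨C, N, h⟩
    obtain ⟨M, hM⟩ := exists_nat_gt (4 * |C|)
    set n := max N (max 1000000 (M + 1)) with hn
    have h1 : N ≤ n := le_max_left _ _
    have h2 : 1000000 ≤ n := (le_max_left _ _).trans (le_max_right _ _)
    have h3 : M + 1 ≤ n := (le_max_right _ _).trans (le_max_right _ _)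
    have h4 := h n h1
    have h5 := gap n h2
    have h6 : 1 / 4 ≤ |spex n T9 - f 2 (((2 : ℕ) : ℝ) - 1) n| := by
      rw [abs_sub_comm]
      exact le_trans (by linarith) (le_abs_self _)
    have hnpos : (0 : ℝ) < n := by
      have : 0 < n := by omega
      exact_mod_cast this
    have h7 : C / n < 1 / 4 := by
      rw [div_lt_iff₀ hnpos]
      have h8 : (M : ℝ) < n := by
        have : M < n := by omega
        exact_mod_cast this
      have := le_abs_self C
      linarith
    linarith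
  · intro n hn
    exact gap n hn

end Pool.Agent.Results.MP_2bde17_co.GapOneQuarter
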